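import Mathlib
import Pool.Agent.H979.GW.StmA

set_option autoImplicit false
set_option linter.unusedSectionVars false
set_option linter.unusedVariables false

open MeasureTheory ProbabilityTheory Filter Topology Set
open scoped ENNReal NNReal

namespace Pool.Agent.H106.GWU

open Pool.Agent.H979.GW

theorem Sf_eq {Λ : Type} (W : List Λ → ℝ) (v : List Λ) :
    Sf W v = ∑ i ∈ Finset.range v.length, W (v.drop i) := by
  induction v with
  | nil => rfl
  | cons c v ih =>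
    rw [List.length_cons, Finset.sum_range_succ']
    simp only [List.drop_succ_cons, List.drop_zero]
    show W (c :: v) + Sf W v = _
    rw [ih, add_comm]

theorem Sf_nonneg {Λ : Type} (W : List Λ → ℝ) (hW : ∀ v, 0 ≤ W v) (v : List Λ) : 0 ≤ Sf W v := by
  rw [Sf_eq]; exact Finset.sum_nonneg fun i _ => hW _

variable {Q : Type} [Fintype Q] [DecidableEq Q]

/-- the weight of the root -/
noncomputable def ph (ρ : ℝ) (b : Q) (ω : Env Q) : ℝ := ρ + (chd (ω [])).card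

theorem memLp_ph (q : Q → Measure (Q → ℕ)) [∀ a, IsProbabilityMeasure (q a)]
    (hmom : ∀ a b, Integrable (fun x : Q → ℕ => (x b : ℝ) ^ 2) (q a)) (ρ : ℝ) (a : Q) :
    MemLp (ph ρ a) 2 (law q a) := by
  have h1 : MeasurePreserving (fun ω : Env Q => ω []) (law q a) (q a) :=
    ⟨measurable_pi_apply _, Measure.infinitePi_map_eval (fun v : Vx Q => q (ty a v)) []⟩
  have h2 : MemLp (fun x : Q → ℕ => ρ + ((chd x).card : ℝ)) 2 (q a) := by
    have h3 : (fun x : Q → ℕ => ρ + ((chd x).card : ℝ)) = fun x => ρ + ∑ b, (x b : ℝ) := by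
      funext x; rw [card_chd]; push_cast; rfl
    rw [h3]
    refine (memLp_const ρ).add (memLp_finsetSum _ fun b _ => ?_)
    have hm : Measurable (fun x : Q → ℕ => (x b : ℝ)) :=
      measurable_from_top.comp (measurable_pi_apply b)
    rw [memLp_two_iff_integrable_sq hm.aestronglyMeasurable]
    exact hmom a b
  exact h2.comp_measurePreserving h1

/-- exchange of the sums: the weighted sum of `S` over generation `k` -/
theorem sum_Sf (hlev : S_LEV Q) (ρ : ℝ) (a : Q) (ω : Env Q) (W : Vx Q → ℝ) (k : ℕ) :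
    ∑ v ∈ Lev (cht ω) k, (ρ⁻¹) ^ k * (ρ + (cht ω v).card) * Sf W v =
      ∑ i ∈ Finset.range k, (ρ⁻¹) ^ (k - i) * ∑ u ∈ Lev (cht ω) (k - i), W u *
        ((ρ⁻¹) ^ i * TT^[i] (ph ρ) (ty a u) (sh u ω)) := by
  have h1 : ∀ v ∈ Lev (cht ω) k, (ρ⁻¹) ^ k * (ρ + (cht ω v).card) * Sf W v =
      ∑ i ∈ Finset.range k, (ρ⁻¹) ^ k * (ρ + (cht ω v).card) * W (v.drop i) := by
    intro v hv
    rw [Sf_eq, (mem_Lev.1 hv).1, Finset.mul_sum]
  rw [Finset.sum_congr rfl h1, Finset.sum_comm]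
  refine Finset.sum_congr rfl fun i hi => ?_
  have hi' : i ≤ k := (Finset.mem_range.1 hi).le
  have h2 := hlev.2 ω (k - i) i (fun v => (ρ⁻¹) ^ k * (ρ + (cht ω v).card) * W (v.drop i))
  rw [Nat.sub_add_cancel hi'] at h2
  rw [h2, Finset.mul_sum]
  refine Finset.sum_congr rfl fun u _ => ?_
  rw [hlev.1 (ph ρ) i (ty a u) (sh u ω), Finset.mul_sum, Finset.mul_sum, Finset.mul_sum]
  refine Finset.sum_congr rfl fun w hw => ?_
  have h3 : (w ++ u).drop i = u := by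
    rw [← (mem_Lev.1 hw).1]; exact List.drop_left
  rw [h3]
  have h4 : (ρ⁻¹) ^ k = (ρ⁻¹) ^ (k - i) * (ρ⁻¹) ^ i := by
    rw [← pow_add, Nat.sub_add_cancel hi']
  have h5 : ph ρ (ty (ty a u) w) (sh w (sh u ω)) = ρ + (cht ω (w ++ u)).card := rfl
  rw [h4, h5]
  ring

/-- the random gradient bound -/
theorem exists_F (q : Q → Measure (Q → ℕ)) [∀ a, IsProbabilityMeasure (q a)]
    (D : ℕ → Q → Env Q → ℝ) {K s : ℝ} (hK : 0 ≤ K) (hs : 0 ≤ s) (hs1 : s < 1)
    (hD : ∀ (i : ℕ) (a : Q), MemLp (D i a) 2 (law q a) ∧ ∫ ω, (D i a ω) ^ 2 ∂(law q a) ≤ K * s ^ i) :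
    ∃ (t : ℝ) (F : Q → Env Q → ℝ), 0 ≤ t ∧ t < 1 ∧ (∀ a, Integrable (F a) (law q a)) ∧
      (∀ a ω, 0 ≤ F a ω) ∧ ∀ a, ∀ᵐ ω ∂(law q a), ∀ i, D i a ω ^ 2 ≤ t ^ (2 * i) * F a ω := by
  set t : ℝ := (3 + s) / 4 with ht
  have ht0 : 0 < t := by rw [ht]; linarith
  have ht1 : t < 1 := by rw [ht]; linarith
  have hts : s ≤ t ^ 4 := by
    have h := one_add_mul_le_pow (show (-2 : ℝ) ≤ t - 1 by linarith) 4
    have h2 : 1 + ((4 : ℕ) : ℝ) * (t - 1) = s := by rw [ht]; push_cast; ring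
    rw [h2] at h
    calc s ≤ (1 + (t - 1)) ^ 4 := h
      _ = t ^ 4 := by ring
  set G : Q → Env Q → ℝ≥0∞ := fun a ω => ∑' i : ℕ, ENNReal.ofReal ((t⁻¹) ^ (2 * i) * D i a ω ^ 2)
    with hG
  have hm : ∀ a i, AEMeasurable (fun ω => ENNReal.ofReal ((t⁻¹) ^ (2 * i) * D i a ω ^ 2)) (law q a) :=
    fun a i => (((hD i a).1.1.aemeasurable.pow_const 2).const_mul _).ennreal_ofReal
  have hGm : ∀ a, AEMeasurable (G a) (law q a) := fun a => AEMeasurable.tsum (hm a)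
  have hGf : ∀ a, ∫⁻ ω, G a ω ∂(law q a) ≠ ∞ := by
    intro a
    rw [hG, lintegral_tsum (hm a)]
    have h1 : ∀ i : ℕ, ∫⁻ ω, ENNReal.ofReal ((t⁻¹) ^ (2 * i) * D i a ω ^ 2) ∂(law q a) ≤
        ENNReal.ofReal (K * (t ^ 2) ^ i) := by
      intro i
      rw [← ofReal_integral_eq_lintegral_ofReal ((hD i a).1.integrable_sq.const_mul _)
        (Eventually.of_forall fun ω => by positivity), integral_const_mul]
      refine ENNReal.ofReal_le_ofReal ?_
      calc (t⁻¹) ^ (2 * i) * ∫ ω, D i a ω ^ 2 ∂(law q a) ≤ (t⁻¹) ^ (2 * i) * (K * s ^ i) := by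
            gcongr; exact (hD i a).2
        _ ≤ (t⁻¹) ^ (2 * i) * (K * (t ^ 4) ^ i) := by gcongr
        _ = K * (t ^ 2) ^ i * ((t⁻¹) ^ (2 * i) * t ^ (2 * i)) := by
            have e1 : (t ^ 4) ^ i = (t ^ 2) ^ i * t ^ (2 * i) := by
              rw [← pow_mul, ← pow_mul, ← pow_add]; congr 1; omega
            rw [e1]; ring
        _ = K * (t ^ 2) ^ i := by
            rw [← mul_pow, inv_mul_cancel₀ ht0.ne', one_pow, mul_one]
    refine ne_top_of_le_ne_top ?_ (ENNReal.tsum_le_tsum h1)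
    refine Summable.tsum_ofReal_ne_top ?_
    exact (summable_geometric_of_lt_one (by positivity) (by nlinarith)).mul_left K
  refine ⟨t, fun a ω => (G a ω).toReal, ht0.le, ht1, fun a => ?_, fun a ω => ENNReal.toReal_nonneg,
    fun a => ?_⟩
  · exact integrable_toReal_of_lintegral_ne_top (hGm a) (hGf a)
  · filter_upwards [ae_lt_top' (hGm a) (hGf a)] with ω hω i
    have h1 : ENNReal.ofReal ((t⁻¹) ^ (2 * i) * D i a ω ^ 2) ≤ G a ω := ENNReal.le_tsum i
    have h2 : (t⁻¹) ^ (2 * i) * D i a ω ^ 2 ≤ (G a ω).toReal :=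
      (ENNReal.ofReal_le_iff_le_toReal hω.ne).1 h1
    calc D i a ω ^ 2 = t ^ (2 * i) * ((t⁻¹) ^ (2 * i) * D i a ω ^ 2) := by
          rw [← mul_assoc, ← mul_pow, mul_inv_cancel₀ ht0.ne', one_pow, one_mul]
      _ ≤ t ^ (2 * i) * (G a ω).toReal := by gcongr

/-- a property which holds a.s. at the root holds a.s. at all vertices -/
theorem ae_sh (q : Q → Measure (Q → ℕ)) [∀ a, IsProbabilityMeasure (q a)] (hsh : S_SH q)
    {p : Q → Env Q → Prop} (hp : ∀ b, ∀ᵐ ω ∂(law q b), p b ω) (a : Q) :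
    ∀ᵐ ω ∂(law q a), ∀ v : Vx Q, p (ty a v) (sh v ω) := by
  rw [ae_all_iff]
  intro v
  have h1 := hp (ty a v)
  rw [← (hsh a v).2] at h1
  exact ae_of_ae_map (hsh a v).1.aemeasurable h1

/-- the deterministic limit argument -/
theorem limit_arg {P M N D a : ℕ → ℝ} {η κ w B : ℝ}
    (hP0 : ∀ k, 0 ≤ P k) (hP : ∀ k, 1 ≤ k → P k ≤ (k : ℝ)⁻¹ * M k - η * D k + N k)
    (hM : ∀ k, M k ≤ κ * ∑ i ∈ Finset.range k, a (i + 1) + B)
    (ha : Tendsto a atTop (𝓝 (η * w))) (hD : Tendsto D atTop (𝓝 (κ * w)))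
    (hN : Tendsto N atTop (𝓝 0)) : Tendsto P atTop (𝓝 0) := by
  have h1 : Tendsto (fun k : ℕ => (k : ℝ)⁻¹ * ∑ i ∈ Finset.range k, a (i + 1)) atTop (𝓝 (η * w)) :=
    ((tendsto_add_atTop_iff_nat 1).2 ha).cesaro
  have h2 : Tendsto (fun k : ℕ => (k : ℝ)⁻¹) atTop (𝓝 0) := tendsto_inv_atTop_nhds_zero_nat
  have h3 : Tendsto (fun k : ℕ => κ * ((k : ℝ)⁻¹ * ∑ i ∈ Finset.range k, a (i + 1)) +
      B * (k : ℝ)⁻¹ - η * D k + N k) atTop (𝓝 (κ * (η * w) + B * 0 - η * (κ * w) + 0)) :=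
    (((h1.const_mul κ).add (h2.const_mul B)).sub (hD.const_mul η)).add hN
  have h4 : κ * (η * w) + B * 0 - η * (κ * w) + 0 = 0 := by ring
  rw [h4] at h3
  refine squeeze_zero' (Eventually.of_forall hP0)
    ((eventually_ge_atTop 1).mono fun k hk => (hP k hk).trans ?_) h3
  have h5 : (k : ℝ)⁻¹ * M k ≤ (k : ℝ)⁻¹ * (κ * ∑ i ∈ Finset.range k, a (i + 1) + B) := by
    have := hM k
    gcongr
  have h6 : (k : ℝ)⁻¹ * (κ * ∑ i ∈ Finset.range k, a (i + 1) + B) =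
      κ * ((k : ℝ)⁻¹ * ∑ i ∈ Finset.range k, a (i + 1)) + B * (k : ℝ)⁻¹ := by ring
  linarith

/-- the negative part tends to zero -/
theorem neg_arg {N D : ℕ → ℝ} {L : ℝ → ℕ → ℝ} {c c' d η' : ℝ} (hN0 : ∀ k, 0 ≤ N k)
    (hN : ∀ ε, 0 < ε → ε ≤ 1 → ∀ k : ℕ, 1 ≤ k →
      N k ≤ ε * c * D k + c' * (D k * (k : ℝ)⁻¹) + η' * L ε k)
    (hD : Tendsto D atTop (𝓝 d)) (hL : ∀ ε, 0 < ε → Tendsto (L ε) atTop (𝓝 0)) :
    Tendsto N atTop (𝓝 0) := by
  rw [tendsto_order]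
  refine ⟨fun x hx => Eventually.of_forall fun k => hx.trans_le (hN0 k), fun δ hδ => ?_⟩
  have hcd : 0 < |c * d| + 1 := by positivity
  obtain ⟨ε, hε, hε1, hεd⟩ : ∃ ε : ℝ, 0 < ε ∧ ε ≤ 1 ∧ ε * (|c * d| + 1) < δ := by
    refine ⟨min 1 (δ / (2 * (|c * d| + 1))), lt_min one_pos (by positivity), min_le_left _ _, ?_⟩
    calc min 1 (δ / (2 * (|c * d| + 1))) * (|c * d| + 1) ≤
        (δ / (2 * (|c * d| + 1))) * (|c * d| + 1) := by
          gcongr; exact min_le_right _ _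
      _ = δ / 2 := by field_simp
      _ < δ := by linarith
  have h2 : Tendsto (fun k : ℕ => (k : ℝ)⁻¹) atTop (𝓝 0) := tendsto_inv_atTop_nhds_zero_nat
  have h3 : Tendsto (fun k : ℕ => ε * c * D k + c' * (D k * (k : ℝ)⁻¹) + η' * L ε k) atTop
      (𝓝 (ε * c * d + c' * (d * 0) + η' * 0)) :=
    ((hD.const_mul _).add ((hD.mul h2).const_mul _)).add ((hL ε hε).const_mul _)
  have h4 : ε * c * d + c' * (d * 0) + η' * 0 < δ := by
    have h5 : c * d ≤ |c * d| := le_abs_self _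
    nlinarith
  filter_upwards [h3.eventually (gt_mem_nhds h4), eventually_ge_atTop 1] with k hk hk1
  exact (hN ε hε hε1 k hk1).trans_lt hk

open Classical in
theorem upp (q : Q → Measure (Q → ℕ)) [∀ a, IsProbabilityMeasure (q a)]
    {ρ : ℝ} {e m : Q → ℝ} {C r : ℝ} (hy : Hyp q ρ e m C r) (hsh : S_SH q)
    (hW : S_W q ρ e m) (hlln : S_LLN q ρ e m) (hlev : S_LEV Q) (hlow : S_LOW q ρ e m) :
    S_UPP q ρ e m := by
  have hρ : 1 < ρ := hy.rho
  have hρ0 : 0 < ρ := by linarith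
  obtain ⟨hWm, hW0, hW2, -, -, -, hWl⟩ := hW
  set κ : ℝ := ∑ b, m b * ∫ ω, ph ρ b ω ∂(law q b) with hκ
  obtain ⟨K, s, hK, hs, hs1, hKs⟩ := hWl (ph ρ) (memLp_ph q hy.mom ρ)
  obtain ⟨t, F, ht0, ht1, hFi, hF0, hF⟩ := exists_F q
    (fun i a ω => (ρ⁻¹) ^ i * TT^[i] (ph ρ) a ω - κ * WW ρ e a ω) hK hs hs1 hKs
  have hWsq : ∀ b, Integrable (fun ω => WW ρ e b ω ^ 2) (law q b) := fun b => (hW2 b).integrable_sq
  intro a
  have l1 := hlln (ph ρ) (fun b => (memLp_ph q hy.mom ρ b).integrable (by norm_num)) a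
  have l2 := hlln (fun b ω => WW ρ e b ω ^ 2) hWsq a
  have l3 := hlln (fun b ω => WW ρ e b ω ^ 2 + F b ω) (fun b => (hWsq b).add (hFi b)) a
  filter_upwards [l1, l2, l3, ae_sh q hsh hF a, hlow a] with ω h1 h2 h3 h4 h5
  set η : ℝ := etaA q ρ e m with hη
  set W : Vx Q → ℝ := Wv ρ e a ω with hWdef
  have hWnn : ∀ v, 0 ≤ W v := fun v => hW0 _ _
  have hSnn : ∀ v, 0 ≤ Sf W v := Sf_nonneg W hWnn
  -- the weights
  set wt : ℕ → Vx Q → ℝ := fun k v => (ρ⁻¹) ^ k * (ρ + (cht ω v).card) with hwt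
  have hwt0 : ∀ k v, 0 ≤ wt k v := fun k v => by rw [hwt]; positivity
  set D : ℕ → ℝ := fun k => (ρ⁻¹) ^ k * TT^[k] (ph ρ) a ω with hD
  have hDe : ∀ k, ∑ v ∈ Lev (cht ω) k, wt k v = D k := by
    intro k
    rw [hD]
    simp only
    rw [hlev.1 (ph ρ) k a ω, Finset.mul_sum]
    rfl
  -- bound for the sequences
  obtain ⟨G, hG⟩ : ∃ G : ℝ, ∀ j, (ρ⁻¹) ^ j * TT^[j] (fun b ω => WW ρ e b ω ^ 2 + F b ω) a ω ≤ G := by
    obtain ⟨G, hG⟩ := h3.bddAbove_range
    exact ⟨G, fun j => hG ⟨j, rfl⟩⟩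
  have hG0 : 0 ≤ G := by
    refine le_trans ?_ (hG 0)
    simp only [pow_zero, one_mul, Function.iterate_zero, id_eq]
    have := hF0 a ω
    positivity
  refine limit_arg (M := fun k => ∑ v ∈ Lev (cht ω) k, wt k v * Sf W v)
    (N := fun k => (k : ℝ)⁻¹ * ∑ v ∈ Lev (cht ω) k, wt k v * max 0 (η * k - Sf W v))
    (D := D) (a := fun j => (ρ⁻¹) ^ j * TT^[j] (fun b ω => WW ρ e b ω ^ 2) a ω)
    (η := η) (κ := κ) (w := WW ρ e a ω) (B := G / (1 - t)) ?_ ?_ ?_ h2 h1 ?_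
  · intro k
    refine mul_nonneg (by positivity) (Finset.sum_nonneg fun v _ => mul_nonneg (hwt0 k v) ?_)
    exact le_max_left _ _
  · intro k hk
    have hk0 : (k : ℝ) ≠ 0 := by positivity
    have e1 : ∀ v, wt k v * max 0 (Sf W v - η * k) = wt k v * Sf W v - η * k * wt k v +
        wt k v * max 0 (η * k - Sf W v) := by
      intro v
      rcases le_total (Sf W v) (η * k) with h | h
      · rw [max_eq_left (by linarith), max_eq_right (by linarith)]; ring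
      · rw [max_eq_right (by linarith), max_eq_left (by linarith)]; ring
    have e2 : ∑ v ∈ Lev (cht ω) k, wt k v * max 0 (Sf W v - η * k) =
        ∑ v ∈ Lev (cht ω) k, wt k v * Sf W v - η * k * D k +
        ∑ v ∈ Lev (cht ω) k, wt k v * max 0 (η * k - Sf W v) := by
      rw [Finset.sum_congr rfl fun v _ => e1 v, Finset.sum_add_distrib, Finset.sum_sub_distrib,
        ← Finset.mul_sum, hDe]
    refine le_of_eq ?_
    have e3 : (k : ℝ)⁻¹ * ∑ v ∈ Lev (cht ω) k, wt k v * max 0 (Sf W v - η * k) =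
        (k : ℝ)⁻¹ * ∑ v ∈ Lev (cht ω) k, wt k v * Sf W v - η * D k +
        (k : ℝ)⁻¹ * ∑ v ∈ Lev (cht ω) k, wt k v * max 0 (η * k - Sf W v) := by
      rw [e2]; field_simp
    exact e3
  · intro k
    have e1 := sum_Sf hlev ρ a ω W k
    have e2 : ∀ i ∈ Finset.range k, (ρ⁻¹) ^ (k - i) * ∑ u ∈ Lev (cht ω) (k - i), W u *
        ((ρ⁻¹) ^ i * TT^[i] (ph ρ) (ty a u) (sh u ω)) ≤
        κ * ((ρ⁻¹) ^ (k - i) * TT^[k - i] (fun b ω => WW ρ e b ω ^ 2) a ω) + G * t ^ i := by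
      intro i _
      have f1 : ∀ u : Vx Q, W u * ((ρ⁻¹) ^ i * TT^[i] (ph ρ) (ty a u) (sh u ω)) ≤
          κ * W u ^ 2 + t ^ i * (W u ^ 2 + F (ty a u) (sh u ω)) := by
        intro u
        have g1 := h4 u i
        set Δ : ℝ := (ρ⁻¹) ^ i * TT^[i] (ph ρ) (ty a u) (sh u ω) - κ * WW ρ e (ty a u) (sh u ω)
          with hΔ
        have g2 : (ρ⁻¹) ^ i * TT^[i] (ph ρ) (ty a u) (sh u ω) = κ * W u + Δ := by
          rw [hΔ]; show _ = κ * WW ρ e (ty a u) (sh u ω) + _; ring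
        rw [g2]
        have hFu := hF0 (ty a u) (sh u ω)
        set f : ℝ := F (ty a u) (sh u ω) with hf
        -- `W Δ ≤ t^i (W^2 + F)`
        have g3 : |Δ| ≤ t ^ i * Real.sqrt f := by
          refine abs_le_of_sq_le_sq ?_ (by positivity)
          rw [mul_pow, Real.sq_sqrt hFu, ← pow_mul, mul_comm i 2]
          exact g1
        have g4 : W u * Δ ≤ W u * (t ^ i * Real.sqrt f) :=
          mul_le_mul_of_nonneg_left ((le_abs_self _).trans g3) (hWnn u)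
        have g5 : W u * Real.sqrt f ≤ W u ^ 2 + f := by
          have := Real.sq_sqrt hFu
          nlinarith [sq_nonneg (W u - Real.sqrt f), sq_nonneg (W u), sq_nonneg (Real.sqrt f)]
        have g6 : t ^ i * (W u * Real.sqrt f) ≤ t ^ i * (W u ^ 2 + f) := by gcongr
        nlinarith
      have f2 : ∑ u ∈ Lev (cht ω) (k - i), W u *
          ((ρ⁻¹) ^ i * TT^[i] (ph ρ) (ty a u) (sh u ω)) ≤
          κ * TT^[k - i] (fun b ω => WW ρ e b ω ^ 2) a ω +
          t ^ i * TT^[k - i] (fun b ω => WW ρ e b ω ^ 2 + F b ω) a ω := by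
        rw [hlev.1 _ (k - i) a ω, hlev.1 _ (k - i) a ω, Finset.mul_sum, Finset.mul_sum,
          ← Finset.sum_add_distrib]
        exact Finset.sum_le_sum fun u _ => f1 u
      calc (ρ⁻¹) ^ (k - i) * ∑ u ∈ Lev (cht ω) (k - i), W u *
            ((ρ⁻¹) ^ i * TT^[i] (ph ρ) (ty a u) (sh u ω)) ≤
          (ρ⁻¹) ^ (k - i) * (κ * TT^[k - i] (fun b ω => WW ρ e b ω ^ 2) a ω +
            t ^ i * TT^[k - i] (fun b ω => WW ρ e b ω ^ 2 + F b ω) a ω) := by gcongr
        _ = κ * ((ρ⁻¹) ^ (k - i) * TT^[k - i] (fun b ω => WW ρ e b ω ^ 2) a ω) +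
            t ^ i * ((ρ⁻¹) ^ (k - i) * TT^[k - i] (fun b ω => WW ρ e b ω ^ 2 + F b ω) a ω) := by
              ring
        _ ≤ κ * ((ρ⁻¹) ^ (k - i) * TT^[k - i] (fun b ω => WW ρ e b ω ^ 2) a ω) + t ^ i * G := by
              have := hG (k - i)
              gcongr
        _ = _ := by ring
    show ∑ v ∈ Lev (cht ω) k, wt k v * Sf W v ≤ _
    rw [e1]
    refine (Finset.sum_le_sum e2).trans ?_
    rw [Finset.sum_add_distrib, ← Finset.mul_sum, ← Finset.mul_sum]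
    have e3 : ∑ i ∈ Finset.range k,
        (ρ⁻¹) ^ (k - i) * TT^[k - i] (fun b ω => WW ρ e b ω ^ 2) a ω =
        ∑ i ∈ Finset.range k,
        (ρ⁻¹) ^ (i + 1) * TT^[i + 1] (fun b ω => WW ρ e b ω ^ 2) a ω := by
      rw [← Finset.sum_range_reflect]
      refine Finset.sum_congr rfl fun i hi => ?_
      have hi' := Finset.mem_range.1 hi
      have : k - (k - 1 - i) = i + 1 := by omega
      rw [this]
    have e4 : G * ∑ i ∈ Finset.range k, t ^ i ≤ G / (1 - t) := by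
      rw [div_eq_mul_inv]
      gcongr
      have h1t : 0 < 1 - t := by linarith
      rw [geom_sum_eq ht1.ne, ← neg_div_neg_eq, neg_sub, neg_sub, div_eq_mul_inv]
      have : 0 ≤ t ^ k := by positivity
      have h2t : 0 < (1 - t)⁻¹ := by positivity
      nlinarith
    rw [e3]
    linarith
  · refine neg_arg (L := fun ε k => (k : ℝ) ^ 2 *
      ∑ j ∈ Finset.range (1 * k + 1), ∑ v ∈ Lev (cht ω) j, (ρ⁻¹) ^ j * (ρ + (cht ω v).card) *
      (if Bad ρ (Wv ρ e a ω) (etaA q ρ e m) ε (ε * k) v then 1 else 0))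
      (c := (ρ - 1)⁻¹) (c' := (ρ - 1)⁻¹ * (ρ * W [])) (η' := |η|) ?_ ?_ h1
      (fun ε hε => h5 ε hε 1)
    · intro k
      refine mul_nonneg (by positivity) (Finset.sum_nonneg fun v _ => mul_nonneg (hwt0 k v) ?_)
      exact le_max_left _ _
    · intro ε hε hε1 k hk
      have hk0 : (0 : ℝ) < k := by exact_mod_cast hk
      have hk1 : (1 : ℝ) ≤ k := by exact_mod_cast hk
      have hρ1 : 0 < ρ - 1 := by linarith
      have f1 : ∀ v ∈ Lev (cht ω) k, max 0 (η * k - Sf W v) ≤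
          (ρ - 1)⁻¹ * (ε * k + ρ * W []) + |η| * k * (if Bad ρ W η ε (ε * k) v then 1 else 0) := by
        intro v hv
        have hlen := (mem_Lev.1 hv).1
        have hW00 := hWnn []
        have hr : 0 ≤ (ρ - 1)⁻¹ * (ε * k + ρ * W []) := by positivity
        split_ifs with hb
        · refine max_le (by positivity) ?_
          have := hSnn v
          have h7 : η * k ≤ |η| * k := by
            gcongr; exact le_abs_self _
          linarith
        · refine max_le (by rw [mul_zero, add_zero]; exact hr) ?_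
          rw [mul_zero, add_zero]
          have h6 : ((ρ - 1) * η - ε) * k ≤ (ρ - 1) * (Sf W v - Sf W (v.drop k)) - ρ * W v +
              ρ * W (v.drop k) := by
            by_contra hcon
            refine hb ⟨k, hlen.ge, ?_, not_le.1 hcon⟩
            nlinarith
          have h7 : v.drop k = [] := by rw [← hlen]; exact List.drop_length
          rw [h7] at h6
          have h8 : Sf W ([] : Vx Q) = 0 := rfl
          rw [h8] at h6
          have h9 : (ρ - 1) * (η * k - Sf W v) ≤ ε * k + ρ * W [] := by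
            have := hWnn v
            nlinarith
          calc η * k - Sf W v = (ρ - 1)⁻¹ * ((ρ - 1) * (η * k - Sf W v)) := by
                rw [← mul_assoc, inv_mul_cancel₀ hρ1.ne', one_mul]
            _ ≤ (ρ - 1)⁻¹ * (ε * k + ρ * W []) := by gcongr
      have f2 : ∑ v ∈ Lev (cht ω) k, wt k v * max 0 (η * k - Sf W v) ≤
          (ρ - 1)⁻¹ * (ε * k + ρ * W []) * D k +
          |η| * k * ∑ v ∈ Lev (cht ω) k, wt k v * (if Bad ρ W η ε (ε * k) v then 1 else 0) := by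
        rw [← hDe, Finset.mul_sum, Finset.mul_sum, ← Finset.sum_add_distrib]
        refine Finset.sum_le_sum fun v hv => ?_
        refine (mul_le_mul_of_nonneg_left (f1 v hv) (hwt0 k v)).trans (le_of_eq ?_)
        ring
      have f3 : ∑ v ∈ Lev (cht ω) k, wt k v * (if Bad ρ W η ε (ε * k) v then 1 else 0) ≤
          (k : ℝ) ^ 2 * ∑ j ∈ Finset.range (1 * k + 1), ∑ v ∈ Lev (cht ω) j,
            (ρ⁻¹) ^ j * (ρ + (cht ω v).card) *
            (if Bad ρ (Wv ρ e a ω) (etaA q ρ e m) ε (ε * k) v then 1 else 0) := by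
        have g1 : ∀ j ∈ Finset.range (1 * k + 1), 0 ≤ ∑ v ∈ Lev (cht ω) j,
            (ρ⁻¹) ^ j * (ρ + (cht ω v).card) *
            (if Bad ρ (Wv ρ e a ω) (etaA q ρ e m) ε (ε * k) v then (1 : ℝ) else 0) := by
          intro j _
          refine Finset.sum_nonneg fun v _ => mul_nonneg (hwt0 j v) ?_
          split_ifs <;> norm_num
        have g2 := Finset.single_le_sum g1 (Finset.mem_range.2 (by omega : k < 1 * k + 1))
        have g3 := Finset.sum_nonneg g1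
        exact le_trans g2 (le_mul_of_one_le_left g3 (one_le_pow₀ hk1))
      have hb0 : 0 ≤ |η| := abs_nonneg _
      calc (k : ℝ)⁻¹ * ∑ v ∈ Lev (cht ω) k, wt k v * max 0 (η * k - Sf W v) ≤
          (k : ℝ)⁻¹ * ((ρ - 1)⁻¹ * (ε * k + ρ * W []) * D k +
          |η| * k * ∑ v ∈ Lev (cht ω) k, wt k v * (if Bad ρ W η ε (ε * k) v then 1 else 0)) := by
            gcongr
        _ = ε * (ρ - 1)⁻¹ * D k + (ρ - 1)⁻¹ * (ρ * W []) * (D k * (k : ℝ)⁻¹) +
          |η| * ∑ v ∈ Lev (cht ω) k, wt k v * (if Bad ρ W η ε (ε * k) v then 1 else 0) := by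
            field_simp
        _ ≤ _ := by
            refine add_le_add le_rfl ?_
            exact mul_le_mul_of_nonneg_left f3 hb0

end Pool.Agent.H106.GWU

namespace Pool.Agent.H106

open Pool.Agent.H979.GW

theorem gw_upp {Q : Type} [Fintype Q] [DecidableEq Q] (q : Q → Measure (Q → ℕ))
    [∀ a, IsProbabilityMeasure (q a)] {ρ : ℝ} {e m : Q → ℝ} {C r : ℝ} (hy : Hyp q ρ e m C r)
    (hsh : S_SH q) (hm1 : S_M1 q) (hW : S_W q ρ e m) (hlln : S_LLN q ρ e m) (hlev : S_LEV Q)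
    (hlow : S_LOW q ρ e m) : S_UPP q ρ e m :=
  GWU.upp q hy hsh hW hlln hlev hlow

end Pool.Agent.H106
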